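import Pool.Agent.MP_0811ac_an.Mg.Own

set_option autoImplicit false

open MeasureTheory AddCircle Filter Topology

namespace Pool.Agent.Results.MP_0811ac_an.SpectralRadius
open Pool.Agent.MP_0811ac_an

/-- If the Toeplitz operator with bounded symbol `f` is bounded from the analytic polynomials
(sup norm) into `H∞`, then it is a bounded operator on `H∞` and the limit of the `k`-th roots of
the operator norms of its powers is the `L∞` norm of `f`. -/
theorem result (f : Linf)
    (hf : ∃ C : ℝ, ∀ p : HS, (∃ N : ℤ, ∀ n : ℤ, N < n → coeff p.val n = 0) →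
      ∃ q : HS, (∀ n : ℤ, 0 ≤ n → coeff q.val n = coeffMul f p.val n) ∧ ‖q‖ ≤ C * ‖p‖) :
    ∃ T : HS →L[ℂ] HS,
      (∀ g : HS, ∀ n : ℤ, 0 ≤ n → coeff (T g).val n = coeffMul f g.val n) ∧
      Tendsto (fun k : ℕ => ‖T ^ k‖ ^ (1 / k : ℝ)) atTop (𝓝 ‖f‖) := by
  obtain ⟨C, hC⟩ := hf
  have hA : Acts f := acts_of_poly (Lp.memLp f) hC
  obtain ⟨T, hT⟩ := hA.exists_op
  refine ⟨T, hT, ?_⟩
  have h := spectrum.pow_norm_pow_one_div_tendsto_nhds_spectralRadius T
  rw [spectralRadius_eq f hA T hT] at h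
  have h2 := (ENNReal.tendsto_toReal ENNReal.ofReal_ne_top).comp h
  rw [ENNReal.toReal_ofReal (norm_nonneg _)] at h2
  refine h2.congr fun k => ?_
  exact ENNReal.toReal_ofReal (by positivity)

end Pool.Agent.Results.MP_0811ac_an.SpectralRadius
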